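import Mathlib

set_option autoImplicit false

namespace Pool.Agent.Results.MP_e04167_ag.Genus1

open Polynomial

/-- The monic polynomial `λ^n + z_1 λ^(n-1) + ... + z_n`; the coordinate `z_(i+1)` is `z i`. -/
noncomputable def monicPoly (n : ℕ) (z : Fin n → ℂ) : Polynomial ℂ :=
  X ^ n + ∑ i : Fin n, C (z i) * X ^ (n - 1 - (i : ℕ))

/-- `SG n` is the set of `z` with `z_1 = 0` for which the discriminant
`∏_{i<j} (l_i - l_j)^2` of `monicPoly n z` (with roots `l_1, ..., l_n`) is equal to `1`. -/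
def SG (n : ℕ) : Set (Fin n → ℂ) :=
  {z | (∀ i : Fin n, (i : ℕ) = 0 → z i = 0) ∧
    ∃ l : Fin n → ℂ, monicPoly n z = ∏ i : Fin n, (X - C (l i)) ∧
      ∏ i : Fin n, ∏ j ∈ Finset.Ioi i, (l i - l j) ^ 2 = 1}

/-- The elliptic curve `y^2 = x^3 + 1`. -/
def E : WeierstrassCurve ℂ := ⟨0, 0, 0, 0, 1⟩

lemma E_equation (x y : ℂ) : E.toAffine.Equation x y ↔ y ^ 2 = x ^ 3 + 1 := by
  rw [WeierstrassCurve.Affine.equation_iff]
  simp [E]

lemma E_elliptic : E.IsElliptic := by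
  constructor
  have : E.Δ = -432 := by
    simp [E, WeierstrassCurve.Δ, WeierstrassCurve.b₂, WeierstrassCurve.b₄, WeierstrassCurve.b₆,
      WeierstrassCurve.b₈]
    norm_num
  rw [this]
  exact isUnit_iff_ne_zero.mpr (by norm_num)

/-- The polynomial map from the plane: the coefficients of the monic sextic whose roots are the
`x`-coordinates of the points of exact order four on the cubic with parameters `-3 x, 2 y`. -/
def F (t : ℂ) (p : ℂ × ℂ) : Fin 6 → ℂ :=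
  ![0, t ^ 2 * (-15 * p.1), t ^ 3 * (40 * p.2), t ^ 4 * (-45 * p.1 ^ 2),
    t ^ 5 * (24 * p.1 * p.2), t ^ 6 * (27 * p.1 ^ 3 - 32 * p.2 ^ 2)]

lemma exists_cubic_roots (x y : ℂ) : ∃ e1 e2 e3 : ℂ, e1 + e2 + e3 = 0 ∧
    e1 * e2 + e1 * e3 + e2 * e3 = -3 * x ∧ e1 * e2 * e3 = -2 * y := by
  obtain ⟨e1, h1⟩ := IsAlgClosed.exists_root (k := ℂ) (X ^ 3 - C (3 * x) * X + C (2 * y)) (by
    have : (X ^ 3 - C (3 * x) * X + C (2 * y) : ℂ[X]).degree = 3 := by compute_degree!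
    rw [this]; norm_num)
  obtain ⟨e2, h2⟩ := IsAlgClosed.exists_root (k := ℂ) (X ^ 2 + C e1 * X + C (e1 ^ 2 - 3 * x)) (by
    have : (X ^ 2 + C e1 * X + C (e1 ^ 2 - 3 * x) : ℂ[X]).degree = 2 := by compute_degree!
    rw [this]; norm_num)
  simp [IsRoot] at h1 h2
  refine ⟨e1, e2, -e1 - e2, by ring, by linear_combination (-1) * h2, ?_⟩
  linear_combination (-1) * e1 * h2 + h1

lemma prodIoi (f : Fin 6 → Fin 6 → ℂ) :
    ∏ a : Fin 6, ∏ b ∈ Finset.Ioi a, f a b =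
      f 0 1 * f 0 2 * f 0 3 * f 0 4 * f 0 5 * (f 1 2 * f 1 3 * f 1 4 * f 1 5)
      * (f 2 3 * f 2 4 * f 2 5) * (f 3 4 * f 3 5) * f 4 5 := by
  have h0 : Finset.Ioi (0 : Fin 6) = {1, 2, 3, 4, 5} := by decide
  have h1 : Finset.Ioi (1 : Fin 6) = {2, 3, 4, 5} := by decide
  have h2 : Finset.Ioi (2 : Fin 6) = {3, 4, 5} := by decide
  have h3 : Finset.Ioi (3 : Fin 6) = {4, 5} := by decide
  have h4 : Finset.Ioi (4 : Fin 6) = {5} := by decide
  have h5 : Finset.Ioi (5 : Fin 6) = ∅ := by decide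
  rw [Fin.prod_univ_six, h0, h1, h2, h3, h4, h5]
  rw [Finset.prod_insert (by decide), Finset.prod_insert (by decide),
    Finset.prod_insert (by decide), Finset.prod_insert (by decide), Finset.prod_singleton,
    Finset.prod_insert (by decide), Finset.prod_insert (by decide),
    Finset.prod_insert (by decide), Finset.prod_singleton,
    Finset.prod_insert (by decide), Finset.prod_insert (by decide), Finset.prod_singleton,
    Finset.prod_insert (by decide), Finset.prod_singleton, Finset.prod_singleton,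
    Finset.prod_empty]
  ring

lemma mem_SG (t : ℂ) (ht : t ^ 30 * (2 ^ 18 * 108 ^ 5) = 1) (x y : ℂ) (h : y ^ 2 = x ^ 3 + 1) :
    F t (x, y) ∈ SG 6 := by
  obtain ⟨e1, e2, e3, he1, he2, he3⟩ := exists_cubic_roots x y
  obtain ⟨s1, hs1⟩ := IsAlgClosed.exists_pow_nat_eq ((e1 - e2) * (e1 - e3)) (n := 2) (by norm_num)
  obtain ⟨s2, hs2⟩ := IsAlgClosed.exists_pow_nat_eq ((e2 - e1) * (e2 - e3)) (n := 2) (by norm_num)
  obtain ⟨s3, hs3⟩ := IsAlgClosed.exists_pow_nat_eq ((e3 - e1) * (e3 - e2)) (n := 2) (by norm_num)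
  refine ⟨?_, ![t * (e1 + s1), t * (e1 - s1), t * (e2 + s2), t * (e2 - s2), t * (e3 + s3),
    t * (e3 - s3)], ?_, ?_⟩
  · intro i hi
    have : i = 0 := Fin.ext hi
    subst this
    simp [F]
  · have hx : x = -(e1 * e2 + e1 * e3 + e2 * e3) / 3 := by rw [he2]; ring
    have hy : y = -(e1 * e2 * e3) / 2 := by rw [he3]; ring
    have he : e3 = -e1 - e2 := by linear_combination he1
    apply Polynomial.funext
    intro v
    have hprod : eval v (∏ i : Fin 6, (X - C (![t * (e1 + s1), t * (e1 - s1), t * (e2 + s2),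
        t * (e2 - s2), t * (e3 + s3), t * (e3 - s3)] i))) =
        ((v - t * e1) ^ 2 - t ^ 2 * s1 ^ 2) * ((v - t * e2) ^ 2 - t ^ 2 * s2 ^ 2) *
        ((v - t * e3) ^ 2 - t ^ 2 * s3 ^ 2) := by
      simp [Fin.prod_univ_six]
      ring
    have hpoly : eval v (monicPoly 6 (F t (x, y))) = v ^ 6 + t ^ 2 * (-15 * x) * v ^ 4
        + t ^ 3 * (40 * y) * v ^ 3 + t ^ 4 * (-45 * x ^ 2) * v ^ 2 + t ^ 5 * (24 * x * y) * v
        + t ^ 6 * (27 * x ^ 3 - 32 * y ^ 2) := by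
      simp [monicPoly, Fin.sum_univ_six, F]
      ring
    rw [hprod, hpoly, hs1, hs2, hs3]
    subst hx hy he
    ring
  · have hd : ((e1 - e2) * (e1 - e3) * (e2 - e3)) ^ 2 = -108 := by
      have : ((e1 - e2) * (e1 - e3) * (e2 - e3)) ^ 2 = -4 * (e1 * e2 + e1 * e3 + e2 * e3) ^ 3
          - 27 * (e1 * e2 * e3) ^ 2 := by
        have he : e3 = -e1 - e2 := by linear_combination he1
        subst he
        ring
      rw [this, he2, he3]
      linear_combination (-108) * h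
    have hR : ∀ a b c u w : ℂ, u ^ 2 = (a - b) * (a - c) → w ^ 2 = (b - a) * (b - c) →
        ((a + u) - (b + w)) * ((a + u) - (b - w)) * ((a - u) - (b + w)) * ((a - u) - (b - w)) =
          4 * (a - b) ^ 2 * (a - c) * (b - c) := by
      intro a b c u w hu hw
      have : ((a + u) - (b + w)) * ((a + u) - (b - w)) * ((a - u) - (b + w)) * ((a - u) - (b - w)) =
          ((a - b) ^ 2 - u ^ 2 - w ^ 2) ^ 2 - 4 * u ^ 2 * w ^ 2 := by ring
      rw [this, hu, hw]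
      ring
    have h12 := hR e1 e2 e3 s1 s2 hs1 hs2
    have h13 := hR e1 e3 e2 s1 s3 (by rw [hs1]; ring) (by rw [hs3])
    have h23 := hR e2 e3 e1 s2 s3 (by rw [hs2]; ring) (by rw [hs3]; ring)
    have key : ∏ i : Fin 6, ∏ j ∈ Finset.Ioi i, ((![t * (e1 + s1), t * (e1 - s1), t * (e2 + s2),
        t * (e2 - s2), t * (e3 + s3), t * (e3 - s3)] : Fin 6 → ℂ) i - (![t * (e1 + s1),
        t * (e1 - s1), t * (e2 + s2), t * (e2 - s2), t * (e3 + s3), t * (e3 - s3)] : Fin 6 → ℂ) j) ^ 2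
        = t ^ 30 * (64 * (s1 ^ 2 * s2 ^ 2 * s3 ^ 2)) *
          (((e1 + s1) - (e2 + s2)) * ((e1 + s1) - (e2 - s2)) * ((e1 - s1) - (e2 + s2)) * ((e1 - s1) - (e2 - s2))) ^ 2 *
          (((e1 + s1) - (e3 + s3)) * ((e1 + s1) - (e3 - s3)) * ((e1 - s1) - (e3 + s3)) * ((e1 - s1) - (e3 - s3))) ^ 2 *
          (((e2 + s2) - (e3 + s3)) * ((e2 + s2) - (e3 - s3)) * ((e2 - s2) - (e3 + s3)) * ((e2 - s2) - (e3 - s3))) ^ 2 := by
      rw [prodIoi]
      show (t * (e1 + s1) - t * (e1 - s1)) ^ 2 * (t * (e1 + s1) - t * (e2 + s2)) ^ 2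
        * (t * (e1 + s1) - t * (e2 - s2)) ^ 2 * (t * (e1 + s1) - t * (e3 + s3)) ^ 2
        * (t * (e1 + s1) - t * (e3 - s3)) ^ 2 * ((t * (e1 - s1) - t * (e2 + s2)) ^ 2
        * (t * (e1 - s1) - t * (e2 - s2)) ^ 2 * (t * (e1 - s1) - t * (e3 + s3)) ^ 2
        * (t * (e1 - s1) - t * (e3 - s3)) ^ 2) * ((t * (e2 + s2) - t * (e2 - s2)) ^ 2
        * (t * (e2 + s2) - t * (e3 + s3)) ^ 2 * (t * (e2 + s2) - t * (e3 - s3)) ^ 2)
        * ((t * (e2 - s2) - t * (e3 + s3)) ^ 2 * (t * (e2 - s2) - t * (e3 - s3)) ^ 2)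
        * (t * (e3 + s3) - t * (e3 - s3)) ^ 2 = _
      have q1 : e1 + s1 - (e1 - s1) = 2 * s1 := by ring
      have q2 : e2 + s2 - (e2 - s2) = 2 * s2 := by ring
      have q3 : e3 + s3 - (e3 - s3) = 2 * s3 := by ring
      simp only [← mul_sub, q1, q2, q3, mul_pow]
      generalize e1 + s1 - (e2 + s2) = u1
      generalize e1 + s1 - (e2 - s2) = u2
      generalize e1 - s1 - (e2 + s2) = u3
      generalize e1 - s1 - (e2 - s2) = u4
      generalize e1 + s1 - (e3 + s3) = v1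
      generalize e1 + s1 - (e3 - s3) = v2
      generalize e1 - s1 - (e3 + s3) = v3
      generalize e1 - s1 - (e3 - s3) = v4
      generalize e2 + s2 - (e3 + s3) = w1
      generalize e2 + s2 - (e3 - s3) = w2
      generalize e2 - s2 - (e3 + s3) = w3
      generalize e2 - s2 - (e3 - s3) = w4
      ring
    rw [key, h12, h13, h23, hs1, hs2, hs3]
    have : t ^ 30 * (64 * ((e1 - e2) * (e1 - e3) * ((e2 - e1) * (e2 - e3)) * ((e3 - e1) * (e3 - e2)))) *
        (4 * (e1 - e2) ^ 2 * (e1 - e3) * (e2 - e3)) ^ 2 * (4 * (e1 - e3) ^ 2 * (e1 - e2) * (e3 - e2)) ^ 2 *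
        (4 * (e2 - e3) ^ 2 * (e2 - e1) * (e3 - e1)) ^ 2 =
        - t ^ 30 * 2 ^ 18 * (((e1 - e2) * (e1 - e3) * (e2 - e3)) ^ 2) ^ 5 := by
      have a1 : e2 - e1 = -(e1 - e2) := by ring
      have a2 : e3 - e1 = -(e1 - e3) := by ring
      have a3 : e3 - e2 = -(e2 - e3) := by ring
      rw [a1, a2, a3]
      generalize e1 - e2 = A
      generalize e1 - e3 = B
      generalize e2 - e3 = D
      ring
    rw [this, hd]
    linear_combination ht

/-- There are `n > 4` (so that `1 < (n-1)(n-2)/2`) and an elliptic curve `W` over `ℂ` (a curve of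
genus one) such that the affine curve `W` minus its point at infinity has a non-constant holomorphic
map to `SG n`. -/
theorem result : ∃ n : ℕ, 4 < n ∧ 1 < (n - 1) * (n - 2) / 2 ∧
    ∃ W : WeierstrassCurve ℂ, W.IsElliptic ∧
      ∃ F : ℂ × ℂ → (Fin n → ℂ), Differentiable ℂ F ∧
        (∀ p : ℂ × ℂ, W.toAffine.Equation p.1 p.2 → F p ∈ SG n) ∧
        ∃ p q : ℂ × ℂ, W.toAffine.Equation p.1 p.2 ∧ W.toAffine.Equation q.1 q.2 ∧ F p ≠ F q := by
  obtain ⟨t, ht⟩ := IsAlgClosed.exists_pow_nat_eq ((2 ^ 18 * 108 ^ 5 : ℂ)⁻¹) (n := 30) (by norm_num)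
  have ht' : t ^ 30 * (2 ^ 18 * 108 ^ 5) = 1 := by
    rw [ht]; norm_num
  have ht0 : t ≠ 0 := by
    rintro rfl
    norm_num at ht'
  refine ⟨6, by norm_num, by norm_num, E, E_elliptic, F t, ?_, ?_, (0, 1), (-1, 0), ?_, ?_, ?_⟩
  · rw [differentiable_pi]
    intro i
    fin_cases i <;> simp [F] <;> fun_prop
  · rintro ⟨x, y⟩ hp
    exact mem_SG t ht' x y ((E_equation x y).mp hp)
  · rw [E_equation]; norm_num
  · rw [E_equation]; norm_num
  · intro h
    have := congrFun h 1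
    simp [F, ht0] at this

end Pool.Agent.Results.MP_e04167_ag.Genus1
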